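import Pool.Agent.Helper64.DT.Stmts
import Pool.Agent.Helper24.CT.POS

/-! # The position lemma without assumption on triangles -/

set_option autoImplicit false

namespace Pool.Agent.Helper64.DT

open Pool.Agent.Helper64.CT
open Pool.Agent.Helper64.HG (Ovl Model Circ IC HellyCircle ChordModel)

/-- a chain of false intervals covering `(L, R)` -/
structure ps2_Ch {V : Type} (T : Set V) (l r : V → ℝ) (τ : V → Prop) (L R : ℝ) (m : ℕ)
    (y : ℕ → V) : Prop where
  T : ∀ i ≤ m, y i ∈ T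
  n : ∀ i ≤ m, ¬ τ (y i)
  y0 : l (y 0) < L ∧ L < r (y 0)
  ch : ∀ i < m, l (y (i + 1)) < r (y i) ∧ r (y i) < r (y (i + 1)) ∧ r (y i) < R ∧
      L < l (y (i + 1))
  gap : ∀ i, i + 2 ≤ m → r (y i) < l (y (i + 2))
  ym : l (y m) < R ∧ R < r (y m)

section

variable {V : Type} {G : SimpleGraph V} {T : Set V} {l r : V → ℝ} {τ : V → Prop} {L R : ℝ}
  {m : ℕ} {y : ℕ → V}

theorem ps2_l (h : ps2_Ch T l r τ L R m y) : ∀ i < m, l (y i) < l (y (i + 1)) := by
  intro i hi
  rcases i with _ | i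
  · exact lt_trans h.y0.1 (h.ch 0 hi).2.2.2
  · exact lt_trans (h.ch i (by omega)).1 (h.gap i (by omega))

theorem ps2_lm (h : ps2_Ch T l r τ L R m y) : ∀ i j, i < j → j ≤ m → l (y i) < l (y j) :=
  pos_mono (fun i => l (y i)) m (ps2_l h)

theorem ps2_rm (h : ps2_Ch T l r τ L R m y) : ∀ i j, i < j → j ≤ m → r (y i) < r (y j) :=
  pos_mono (fun i => r (y i)) m (fun i hi => (h.ch i hi).2.1)

theorem ps2_yy (hM : MOn G T l r) (h : ps2_Ch T l r τ L R m y) :
    ∀ i j, i < j → j ≤ m → (G.Adj (y i) (y j) ↔ j = i + 1) := by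
  intro i j hij hj
  rw [hM.adj (y i) (h.T i (by omega)) (y j) (h.T j hj)]
  constructor
  · intro h1
    by_contra hne2
    have h2 : i + 2 ≤ j := by omega
    have h3 : l (y (i + 2)) ≤ l (y j) := by
      rcases Nat.lt_or_ge (i + 2) j with h4 | h4
      · exact (ps2_lm h (i + 2) j h4 hj).le
      · have h5 : i + 2 = j := by omega
        rw [h5]
    have h6 := h.gap i (by omega)
    have h7 := ps2_lm h i j hij hj
    rcases h1 with ⟨h8, h9, h10⟩ | ⟨h8, h9, h10⟩ <;> linarith
  · rintro rfl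
    exact Or.inl ⟨ps2_l h i (by omega), (h.ch i (by omega)).1, (h.ch i (by omega)).2.1⟩

theorem ps2_cov (h : ps2_Ch T l r τ L R m y) {t : ℝ} (h1 : L < t) (h2 : t < R) :
    ∃ i ≤ m, l (y i) < t ∧ t < r (y i) := by
  have hex : ∃ i, i ≤ m ∧ t < r (y i) := ⟨m, le_rfl, lt_trans h2 h.ym.2⟩
  classical
  have hspec := Nat.find_spec hex
  have hmin : ∀ j < Nat.find hex, ¬ (j ≤ m ∧ t < r (y j)) := fun j hj => Nat.find_min hex hj
  set i := Nat.find hex with hi
  refine ⟨i, hspec.1, ?_, hspec.2⟩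
  rcases Nat.eq_zero_or_pos i with h5 | h5
  · rw [h5]
    exact lt_trans h.y0.1 h1
  · obtain ⟨j, hj⟩ : ∃ j, i = j + 1 := ⟨i - 1, by omega⟩
    have h6 := hmin j (by omega)
    have h7 : r (y j) ≤ t := by
      by_contra h8
      rw [not_le] at h8
      exact h6 ⟨by omega, h8⟩
    have h8 := (h.ch j (by omega)).1
    rw [hj]
    linarith

/-- the third alternative of the lemma -/
def ps2_Cyc (G : SimpleGraph V) (T : Set V) (l r : V → ℝ) (τ : V → Prop) : Prop :=
  ∃ L : List V, IC G L ∧ 4 ≤ L.length ∧ (∀ y ∈ L, y ∈ T) ∧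
    (∀ y ∈ L, ∀ y' ∈ L, y' ∈ Far G y → (τ y ↔ Ins l r y y')) ∧
    ∀ t : ℝ, (∀ y ∈ L, t ≠ l y ∧ t ≠ r y) → ∃ y ∈ L, ¬ (InP l r y t ↔ τ y)

/-- the second alternative of the lemma -/
def ps2_Tri (G : SimpleGraph V) (T : Set V) (l r : V → ℝ) (τ : V → Prop) : Prop :=
  ∃ y1 ∈ T, ∃ y2 ∈ T, ∃ y3 ∈ T, G.Adj y1 y2 ∧ G.Adj y2 y3 ∧ G.Adj y3 y1 ∧
    ∀ t : ℝ, t ≠ l y1 → t ≠ r y1 → t ≠ l y2 → t ≠ r y2 → t ≠ l y3 → t ≠ r y3 →
      ¬ ((InP l r y1 t ↔ τ y1) ∧ (InP l r y2 t ↔ τ y2) ∧ (InP l r y3 t ↔ τ y3))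

/-- the final assembly of a cycle -/
theorem ps2_final (hM : MOn G T l r)
    (hC : ∀ y ∈ T, ∀ y' ∈ T, y' ∈ Far G y → (τ y ↔ Ins l r y y') ∨ (τ y' ↔ Ins l r y' y))
    {ya yb : V} (hyaT : ya ∈ T) (hyaτ : τ ya) (hybT : yb ∈ T) (hybτ : τ yb)
    (h : ps2_Ch T l r τ (l ya) (r yb) m y) (hAdjA : G.Adj ya (y 0)) (hAdjB : G.Adj yb (y m))
    (K : List V) (hIC : IC G K) (hlen : 4 ≤ K.length)
    (hmem : ∀ x ∈ K, x = ya ∨ x = yb ∨ ∃ i ≤ m, x = y i) (haL : ya ∈ K) (hbL : yb ∈ K)
    (hyL : ∀ i ≤ m, y i ∈ K) (hab : ya = yb ∨ G.Adj ya yb)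
    (hAin : ∀ i, 1 ≤ i → i ≤ m → ¬ G.Adj ya (y i) → Ins l r ya (y i))
    (hBin : ∀ i, i < m → ¬ G.Adj yb (y i) → Ins l r yb (y i)) : ps2_Cyc G T l r τ := by
  have hT : ∀ x ∈ K, x ∈ T := by
    intro x hx
    rcases hmem x hx with rfl | rfl | ⟨i, hi, rfl⟩
    · exact hyaT
    · exact hybT
    · exact h.T i hi
  refine ⟨K, hIC, hlen, hT, ?_, ?_⟩
  · intro u hu u' hu' hfar
    have hfar1 : u' ≠ u := hfar.1
    have hfar2 : ¬ G.Adj u u' := hfar.2
    by_cases huτ : τ u
    · refine ⟨fun _ => ?_, fun _ => huτ⟩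
      have hu'y : ∃ i ≤ m, u' = y i := by
        rcases hmem u' hu' with h1 | h1 | h1
        · exfalso
          rcases hmem u hu with h2 | h2 | ⟨i, hi, h2⟩
          · exact hfar1 (by rw [h1, h2])
          · rcases hab with h3 | h3
            · exact hfar1 (by rw [h1, h2, h3])
            · exact hfar2 (by rw [h1, h2]; exact h3.symm)
          · exact h.n i hi (by rw [← h2]; exact huτ)
        · exfalso
          rcases hmem u hu with h2 | h2 | ⟨i, hi, h2⟩
          · rcases hab with h3 | h3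
            · exact hfar1 (by rw [h1, h2, h3])
            · exact hfar2 (by rw [h1, h2]; exact h3)
          · exact hfar1 (by rw [h1, h2])
          · exact h.n i hi (by rw [← h2]; exact huτ)
        · exact h1
      obtain ⟨i, hi, rfl⟩ := hu'y
      rcases hmem u hu with rfl | rfl | ⟨j, hj, h2⟩
      · rcases Nat.eq_zero_or_pos i with h3 | h3
        · subst h3
          exact absurd hAdjA hfar2
        · exact hAin i h3 hi hfar2
      · rcases Nat.lt_or_ge i m with h3 | h3
        · exact hBin i h3 hfar2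
        · have h4 : i = m := by omega
          subst h4
          exact absurd hAdjB hfar2
      · exact absurd (by rw [← h2]; exact huτ) (h.n j hj)
    · refine ⟨fun h1 => absurd h1 huτ, fun h1 => ?_⟩
      by_cases hu'τ : τ u'
      · exact pos_nest G T l r τ hM hC u u' (hT u hu) (hT u' hu') h1 hu'τ
      · exfalso
        have hc : ∀ x ∈ K, ¬ τ x → ∃ i ≤ m, x = y i := by
          intro x hx hxτ
          rcases hmem x hx with h2 | h2 | h2
          · exact absurd (by rw [h2]; exact hyaτ) hxτ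
          · exact absurd (by rw [h2]; exact hybτ) hxτ
          · exact h2
        obtain ⟨i, hi, rfl⟩ := hc u hu huτ
        obtain ⟨j, hj, rfl⟩ := hc u' hu' hu'τ
        have h3 := h1.1
        have h4 := h1.2
        rcases Nat.lt_trichotomy i j with h5 | h5 | h5
        · linarith [ps2_rm h i j h5 hj]
        · exact hfar1 (by rw [h5])
        · linarith [ps2_lm h j i h5 hi]
  · intro t ht
    rcases lt_trichotomy t (l ya) with h2 | h2 | h2
    · refine ⟨ya, haL, fun h => ?_⟩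
      have h3 := (h.2 hyaτ).1
      linarith
    · exact absurd h2 (ht ya haL).1
    rcases lt_trichotomy t (r yb) with h3 | h3 | h3
    · obtain ⟨i, hi, h4, h5⟩ := ps2_cov h h2 h3
      exact ⟨y i, hyL i hi, fun h6 => h.n i hi (h6.1 ⟨h4, h5⟩)⟩
    · exact absurd h3 (ht yb hbL).2
    · refine ⟨yb, hbL, fun h => ?_⟩
      have h4 := (h.2 hybτ).2
      linarith

/-- one true interval -/
theorem ps2_single (hM : MOn G T l r)
    (hC : ∀ y ∈ T, ∀ y' ∈ T, y' ∈ Far G y → (τ y ↔ Ins l r y y') ∨ (τ y' ↔ Ins l r y' y))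
    {a : V} (haT : a ∈ T) (haτ : τ a) (h : ps2_Ch T l r τ (l a) (r a) m y) :
    ps2_Tri G T l r τ ∨ ps2_Cyc G T l r τ := by
  have hneA : ∀ i ≤ m, a ≠ y i := by
    intro i hi h1
    exact h.n i hi (by rw [← h1]; exact haτ)
  -- the ends
  have hra : r (y 0) < r a := by
    by_contra h1
    rw [not_lt] at h1
    have hne2 : r a ≠ r (y 0) := by
      intro h2
      exact hneA 0 (Nat.zero_le m) (hM.injr a haT (y 0) (h.T 0 (Nat.zero_le m)) h2)
    exact h.n 0 (Nat.zero_le m) (pos_nest G T l r τ hM hC (y 0) a (h.T 0 (Nat.zero_le m)) haT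
      ⟨h.y0.1, lt_of_le_of_ne h1 hne2⟩ haτ)
  have hlb : l a < l (y m) := by
    by_contra h1
    rw [not_lt] at h1
    have hne2 : l (y m) ≠ l a := by
      intro h2
      exact hneA m le_rfl (hM.injl (y m) (h.T m le_rfl) a haT h2).symm
    exact h.n m le_rfl (pos_nest G T l r τ hM hC (y m) a (h.T m le_rfl) haT
      ⟨lt_of_le_of_ne h1 hne2, h.ym.2⟩ haτ)
  have hAdjA : G.Adj a (y 0) :=
    ((hM.adj (y 0) (h.T 0 (Nat.zero_le m)) a haT).2 (Or.inl ⟨h.y0.1, h.y0.2, hra⟩)).symm
  have hAdjB : G.Adj a (y m) :=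
    (hM.adj a haT (y m) (h.T m le_rfl)).2 (Or.inl ⟨hlb, h.ym.1, h.ym.2⟩)
  rcases Nat.lt_or_ge m 2 with hm | hm
  · rcases Nat.lt_or_ge m 1 with hm1 | hm1
    · exfalso
      have h2 : m = 0 := by omega
      subst h2
      have h3 := h.ym.2
      linarith
    · left
      have h2 : m = 1 := by omega
      subst h2
      refine ⟨a, haT, y 0, h.T 0 (by omega), y 1, h.T 1 le_rfl, hAdjA,
        (ps2_yy hM h 0 1 (by omega) le_rfl).2 rfl, hAdjB.symm, ?_⟩
      rintro t _ _ _ _ _ _ ⟨e1, e2, e3⟩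
      have e4 := e1.2 haτ
      obtain ⟨i, hi, h5⟩ := ps2_cov h e4.1 e4.2
      rcases Nat.eq_zero_or_pos i with h6 | h6
      · rw [h6] at h5
        exact h.n 0 (by omega) (e2.1 h5)
      · have h7 : i = 1 := by omega
        rw [h7] at h5
        exact h.n 1 le_rfl (e3.1 h5)
  · right
    have hmid : ∀ i, 1 ≤ i → i < m → Ins l r a (y i) := by
      intro i hi1 hi2
      obtain ⟨j, rfl⟩ : ∃ j, i = j + 1 := ⟨i - 1, by omega⟩
      exact ⟨(h.ch j (by omega)).2.2.2, (h.ch (j + 1) hi2).2.2.1⟩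
    have hadjA : ∀ i ≤ m, (G.Adj a (y i) ↔ i = 0 ∨ i = m) := by
      intro i hi
      constructor
      · intro h1
        by_contra h2
        have h3 := hmid i (by omega) (by omega)
        rw [hM.adj a haT (y i) (h.T i hi)] at h1
        have h4 := h3.1
        have h5 := h3.2
        rcases h1 with ⟨h6, h7, h8⟩ | ⟨h6, h7, h8⟩ <;> linarith
      · rintro (rfl | rfl)
        · exact hAdjA
        · exact hAdjB
    set z : ℕ → V := fun i => if i = 0 then a else y (i - 1) with hz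
    have hz0 : z 0 = a := by simp [hz]
    have hzs : ∀ i, z (i + 1) = y i := by
      intro i
      simp [hz]
    have hIC : IC G ((List.range (m + 2)).map z) := by
      apply pos_IC G (m + 2) z (by omega)
      · intro i j hij hj
        obtain ⟨j, rfl⟩ : ∃ j', j = j' + 1 := ⟨j - 1, by omega⟩
        rcases i with _ | i
        · rw [hz0, hzs]
          exact hneA j (by omega)
        · rw [hzs, hzs]
          intro h1
          have h2 := ps2_lm h i j (by omega) (by omega)
          rw [h1] at h2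
          exact lt_irrefl _ h2
      · intro i j hij hj
        obtain ⟨j, rfl⟩ : ∃ j', j = j' + 1 := ⟨j - 1, by omega⟩
        rcases i with _ | i
        · rw [hz0, hzs, hadjA j (by omega)]
          omega
        · rw [hzs, hzs, ps2_yy hM h i j (by omega) (by omega)]
          omega
    refine ps2_final hM hC haT haτ haT haτ h hAdjA hAdjB _ hIC ?_ ?_ ?_ ?_ ?_ (Or.inl rfl) ?_ ?_
    · simp only [List.length_map, List.length_range]
      omega
    · intro x hx
      obtain ⟨i, hi, rfl⟩ := List.mem_map.1 hx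
      rw [List.mem_range] at hi
      rcases i with _ | i
      · exact Or.inl hz0
      · exact Or.inr (Or.inr ⟨i, by omega, hzs i⟩)
    · exact List.mem_map.2 ⟨0, List.mem_range.2 (by omega), hz0⟩
    · exact List.mem_map.2 ⟨0, List.mem_range.2 (by omega), hz0⟩
    · intro i hi
      exact List.mem_map.2 ⟨i + 1, List.mem_range.2 (by omega), hzs i⟩
    · intro i hi1 hi2 hna
      rcases Nat.lt_or_ge i m with h3 | h3
      · exact hmid i hi1 h3
      · exact absurd ((hadjA i hi2).2 (Or.inr (by omega))) hna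
    · intro i hi hna
      rcases Nat.eq_zero_or_pos i with h3 | h3
      · exact absurd ((hadjA i (by omega)).2 (Or.inl h3)) hna
      · exact hmid i h3 hi

end

theorem st_PS2 (h1 : ST_CHN) : ST_PS2 := by
  intro V _ G T l r τ hM hC
  by_cases hA : ∃ t : ℝ, (∀ y ∈ T, t ≠ l y ∧ t ≠ r y) ∧ ∀ y ∈ T, (InP l r y t ↔ τ y)
  · exact Or.inl hA
  right
  change ps2_Tri G T l r τ ∨ ps2_Cyc G T l r τ
  have hB : ∀ t : ℝ, (∀ y ∈ T, t ≠ l y ∧ t ≠ r y) →
      ∃ y ∈ T, ¬ (InP l r y t ↔ τ y) := by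
    intro t ht
    by_contra hcon
    apply hA
    refine ⟨t, ht, fun y hy => ?_⟩
    by_contra h
    exact hcon ⟨y, hy, h⟩
  -- the sets
  set T1 : Set V := {y | y ∈ T ∧ τ y} with hT1
  have hfin : T1.Finite := Set.toFinite T1
  have hne : T1.Nonempty := by
    by_contra hemp
    rw [Set.not_nonempty_iff_eq_empty] at hemp
    obtain ⟨M, hM1⟩ := (Set.toFinite (Set.range r)).bddAbove
    have hM2 : ∀ v, r v ≤ M := fun v => hM1 (Set.mem_range_self v)
    obtain ⟨y, hy, hy2⟩ := hB (M + 1) (by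
      intro y hy
      have h2 := hM.lt y hy
      have h3 := hM2 y
      constructor
      · intro h
        linarith
      · intro h
        linarith)
    apply hy2
    constructor
    · intro h
      have := hM2 y
      linarith [h.2]
    · intro h
      have : y ∈ T1 := ⟨hy, h⟩
      rw [hemp] at this
      exact absurd this (Set.notMem_empty y)
  obtain ⟨ya, hya, hyamax⟩ := Set.exists_max_image T1 l hfin hne
  obtain ⟨yb, hyb, hybmin⟩ := Set.exists_min_image T1 r hfin hne
  have hyaT : ya ∈ T := hya.1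
  have hyaτ : τ ya := hya.2
  have hybT : yb ∈ T := hyb.1
  have hybτ : τ yb := hyb.2
  have hLR : l ya < r yb := pos_disj G T l r τ hM hC yb ya hybT hyaT hybτ hyaτ
  obtain ⟨m, y, hyF, hy0, hch, hgap, hym⟩ := h1 V {y | y ∈ T ∧ ¬ τ y} l r (l ya) (r yb) hLR
    (fun v hv => hM.lt v hv.1) (fun u hu v hv h => hM.injl u hu.1 v hv.1 h)
    (fun u hu v hv h => hM.injr u hu.1 v hv.1 h) (fun u hu v hv => hM.ne u hu.1 v hv.1)
    (by
      intro v hv
      refine ⟨?_, ?_, ?_, ?_⟩
      · intro h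
        have h2 := hM.injl v hv.1 ya hyaT h
        exact hv.2 (by rw [h2]; exact hyaτ)
      · intro h
        exact hM.ne ya hyaT v hv.1 h.symm
      · intro h
        exact hM.ne v hv.1 yb hybT h
      · intro h
        have h2 := hM.injr v hv.1 yb hybT h
        exact hv.2 (by rw [h2]; exact hybτ))
    (by
      intro t htL htR htF
      have hin : ∀ z ∈ T1, l z < t ∧ t < r z := by
        intro z hz
        exact ⟨lt_of_le_of_lt (hyamax z hz) htL, lt_of_lt_of_le htR (hybmin z hz)⟩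
      obtain ⟨v, hv, hv2⟩ := hB t (by
        intro z hz
        by_cases hzt : τ z
        · have h2 := hin z ⟨hz, hzt⟩
          exact ⟨ne_of_gt h2.1, ne_of_lt h2.2⟩
        · exact htF z ⟨hz, hzt⟩)
      have hvt : ¬ τ v := by
        intro h
        exact hv2 ⟨fun _ => h, fun _ => hin v ⟨hv, h⟩⟩
      refine ⟨v, ⟨hv, hvt⟩, ?_⟩
      by_contra h
      exact hv2 ⟨fun h2 => absurd h2 h, fun h2 => absurd h2 hvt⟩)
  have hyT : ∀ i ≤ m, y i ∈ T := fun i hi => (hyF i hi).1
  have hyτ : ∀ i ≤ m, ¬ τ (y i) := fun i hi => (hyF i hi).2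
  have hch2 : ps2_Ch T l r τ (l ya) (r yb) m y := ⟨hyT, hyτ, hy0, hch, hgap, hym⟩
  by_cases hab : ya = yb
  · subst hab
    exact ps2_single hM hC hyaT hyaτ hch2
  -- two vertices
  have hlab : l yb < l ya := by
    rcases lt_or_eq_of_le (hyamax yb hyb) with h | h
    · exact h
    · exact absurd (hM.injl yb hybT ya hyaT h).symm hab
  have hrab : r yb < r ya := by
    rcases lt_or_eq_of_le (hybmin ya hya) with h | h
    · exact h
    · exact absurd (hM.injr yb hybT ya hyaT h).symm hab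
  have hAB : G.Adj yb ya :=
    (hM.adj yb hybT ya hyaT).2 (Or.inl ⟨hlab, hLR, hrab⟩)
  -- a shorter family
  by_cases hc1 : l (y 0) < l yb
  · exact ps2_single hM hC hybT hybτ
      ⟨hyT, hyτ, ⟨hc1, lt_trans hlab hy0.2⟩,
        fun i hi => ⟨(hch i hi).1, (hch i hi).2.1, (hch i hi).2.2.1,
          lt_trans hlab (hch i hi).2.2.2⟩, hgap, hym⟩
  by_cases hc2 : r ya < r (y m)
  · exact ps2_single hM hC hyaT hyaτ
      ⟨hyT, hyτ, hy0,
        fun i hi => ⟨(hch i hi).1, (hch i hi).2.1, lt_trans (hch i hi).2.2.1 hrab,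
          (hch i hi).2.2.2⟩, hgap, ⟨lt_trans hym.1 hrab, hc2⟩⟩
  have hneA : ∀ i ≤ m, ya ≠ y i := by
    intro i hi h
    exact hyτ i hi (by rw [← h]; exact hyaτ)
  have hneB : ∀ i ≤ m, yb ≠ y i := by
    intro i hi h
    exact hyτ i hi (by rw [← h]; exact hybτ)
  have hb0 : l yb < l (y 0) := by
    rw [not_lt] at hc1
    refine lt_of_le_of_ne hc1 ?_
    intro h2
    exact hneB 0 (Nat.zero_le m) (hM.injl yb hybT (y 0) (hyT 0 (Nat.zero_le m)) h2)
  have ham : r (y m) < r ya := by
    rw [not_lt] at hc2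
    refine lt_of_le_of_ne hc2 ?_
    intro h2
    exact hneA m le_rfl (hM.injr (y m) (hyT m le_rfl) ya hyaT h2).symm
  have hr0 : r (y 0) < r ya := by
    rcases Nat.eq_zero_or_pos m with h | h
    · rw [h] at ham
      exact ham
    · exact lt_trans (hch 0 h).2.2.1 hrab
  have hlm0 : l yb < l (y m) := by
    rcases Nat.eq_zero_or_pos m with h | h
    · rw [h]
      exact hb0
    · exact lt_trans hb0 (ps2_lm hch2 0 m h le_rfl)
  have hAdjA : G.Adj ya (y 0) :=
    ((hM.adj (y 0) (hyT 0 (Nat.zero_le m)) ya hyaT).2 (Or.inl ⟨hy0.1, hy0.2, hr0⟩)).symm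
  have hAdjB : G.Adj yb (y m) :=
    (hM.adj yb hybT (y m) (hyT m le_rfl)).2 (Or.inl ⟨hlm0, hym.1, hym.2⟩)
  rcases Nat.lt_or_ge m 1 with hm1 | hm1
  · -- a triangle
    left
    have h2 : m = 0 := by omega
    subst h2
    refine ⟨ya, hyaT, y 0, hyT 0 le_rfl, yb, hybT, hAdjA, hAdjB.symm, hAB, ?_⟩
    rintro t _ _ _ _ _ _ ⟨e1, e2, e3⟩
    have e4 := e1.2 hyaτ
    have e5 := e3.2 hybτ
    exact hyτ 0 le_rfl (e2.1 ⟨lt_trans hy0.1 e4.1, lt_trans e5.2 hym.2⟩)
  right
  have hLi : ∀ i, 1 ≤ i → i ≤ m → l ya < l (y i) := by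
    intro i hi him
    obtain ⟨j, rfl⟩ : ∃ j, i = j + 1 := ⟨i - 1, by omega⟩
    exact (hch j (by omega)).2.2.2
  have hRi : ∀ i, i < m → r (y i) < r yb := fun i hi => (hch i hi).2.2.1
  have hmidA : ∀ i, 1 ≤ i → i ≤ m → Ins l r ya (y i) := by
    intro i hi1 hi2
    rcases Nat.lt_or_ge i m with h3 | h3
    · exact ⟨hLi i hi1 hi2, lt_trans (hRi i h3) hrab⟩
    · have h4 : i = m := by omega
      rw [h4]
      exact ⟨hLi m hm1 le_rfl, ham⟩
  have hmidB : ∀ i, i < m → Ins l r yb (y i) := by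
    intro i hi
    rcases Nat.eq_zero_or_pos i with h3 | h3
    · rw [h3]
      rw [h3] at hi
      exact ⟨hb0, hRi 0 hi⟩
    · exact ⟨lt_trans hlab (hLi i h3 (by omega)), hRi i hi⟩
  have hadjA : ∀ i ≤ m, (G.Adj ya (y i) ↔ i = 0) := by
    intro i hi
    constructor
    · intro h
      by_contra h2
      have h3 := hmidA i (by omega) hi
      rw [hM.adj ya hyaT (y i) (hyT i hi)] at h
      have h4 := h3.1
      have h5 := h3.2
      rcases h with ⟨h6, h7, h8⟩ | ⟨h6, h7, h8⟩ <;> linarith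
    · rintro rfl
      exact hAdjA
  have hadjB : ∀ i ≤ m, (G.Adj yb (y i) ↔ i = m) := by
    intro i hi
    constructor
    · intro h
      by_contra h2
      have h3 := hmidB i (by omega)
      rw [hM.adj yb hybT (y i) (hyT i hi)] at h
      have h4 := h3.1
      have h5 := h3.2
      rcases h with ⟨h6, h7, h8⟩ | ⟨h6, h7, h8⟩ <;> linarith
    · rintro rfl
      exact hAdjB
  set z : ℕ → V := fun i => if i = 0 then yb else if i = 1 then ya else y (i - 2) with hz
  have hz0 : z 0 = yb := by simp [hz]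
  have hz1 : z 1 = ya := by simp [hz]
  have hzs : ∀ i, z (i + 2) = y i := by
    intro i
    simp [hz]
  have hIC : IC G ((List.range (m + 3)).map z) := by
    apply pos_IC G (m + 3) z (by omega)
    · intro i j hij hj
      rcases i with _ | _ | i
      · rw [hz0]
        rcases j with _ | _ | j
        · omega
        · rw [zero_add, hz1]
          exact fun h => hab h.symm
        · rw [hzs]
          exact hneB j (by omega)
      · rw [zero_add, hz1]
        rcases j with _ | _ | j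
        · omega
        · omega
        · rw [hzs]
          exact hneA j (by omega)
      · rcases j with _ | _ | j
        · omega
        · omega
        · rw [hzs, hzs]
          intro h
          have h2 := ps2_lm hch2 i j (by omega) (by omega)
          rw [h] at h2
          exact lt_irrefl _ h2
    · intro i j hij hj
      rcases i with _ | _ | i
      · rw [hz0]
        rcases j with _ | _ | j
        · omega
        · rw [zero_add, hz1]
          exact ⟨fun _ => Or.inl rfl, fun _ => hAB⟩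
        · rw [hzs, hadjB j (by omega)]
          omega
      · rw [zero_add, hz1]
        rcases j with _ | _ | j
        · omega
        · omega
        · rw [hzs, hadjA j (by omega)]
          omega
      · rcases j with _ | _ | j
        · omega
        · omega
        · rw [hzs, hzs, ps2_yy hM hch2 i j (by omega) (by omega)]
          omega
  refine ps2_final hM hC hyaT hyaτ hybT hybτ hch2 hAdjA hAdjB _ hIC ?_ ?_ ?_ ?_ ?_
    (Or.inr hAB.symm) ?_ ?_
  · simp only [List.length_map, List.length_range]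
    omega
  · intro x hx
    obtain ⟨i, hi, rfl⟩ := List.mem_map.1 hx
    rw [List.mem_range] at hi
    rcases i with _ | _ | i
    · exact Or.inr (Or.inl hz0)
    · exact Or.inl hz1
    · exact Or.inr (Or.inr ⟨i, by omega, hzs i⟩)
  · exact List.mem_map.2 ⟨1, List.mem_range.2 (by omega), hz1⟩
  · exact List.mem_map.2 ⟨0, List.mem_range.2 (by omega), hz0⟩
  · intro i hi
    exact List.mem_map.2 ⟨i + 2, List.mem_range.2 (by omega), hzs i⟩
  · intro i hi1 hi2 _
    exact hmidA i hi1 hi2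
  · intro i hi _
    exact hmidB i hi

end Pool.Agent.Helper64.DT
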